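import Pool.Agent.Helper88.RR.Goals
import Pool.Agent.Helper69.PP.CO
import Pool.Agent.Helper24.PP.MA

/-! Packet CB (MP_69be96_nt): the bound for the divisor coefficients, constants independent of `q`. -/

set_option autoImplicit false

open Finset Filter Topology

open scoped Classical

namespace Pool.Agent.Helper31.RR

open Pool.Agent.Helper88.PP (pr Rg om Sf SS uu vv ee LA VV QQ NN XX cost nc dd)
open Pool.Agent.Helper88.RR

/-- `d ≤ 3 φ(d)` -/
theorem le_three_totient {z M d : ℕ} (hz2 : 2 ≤ z) (hz : M ≤ z) (hd : d ∈ SS z (z ^ M)) :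
    (d : ℝ) ≤ 3 * (Nat.totient d : ℝ) := by
  unfold SS at hd
  rw [mem_filter, mem_Ico] at hd
  obtain ⟨⟨hd1, hd2⟩, hsf, hp⟩ := hd
  have hz0 : (0 : ℝ) < z := by exact_mod_cast (by omega : 0 < z)
  have hcard : d.primeFactors.card < M := by
    have h1 : z ^ d.primeFactors.card ≤ ∏ p ∈ d.primeFactors, p := by
      apply Finset.pow_card_le_prod
      intro p hpd
      exact (hp p (Nat.prime_of_mem_primeFactors hpd) (Nat.dvd_of_mem_primeFactors hpd)).le
    rw [Nat.prod_primeFactors_of_squarefree hsf] at h1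
    have h2 : z ^ d.primeFactors.card < z ^ M := lt_of_le_of_lt h1 hd2
    exact (Nat.pow_lt_pow_iff_right (by omega : 1 < z)).1 h2
  have h1 : (Real.exp (-(z : ℝ)⁻¹)) ^ d.primeFactors.card ≤
      ∏ p ∈ d.primeFactors, (1 - (p : ℝ)⁻¹) := by
    have hle : ∀ p ∈ d.primeFactors, Real.exp (-(z : ℝ)⁻¹) ≤ 1 - (p : ℝ)⁻¹ := by
      intro p hpd
      have h3 : z + 1 ≤ p := hp p (Nat.prime_of_mem_primeFactors hpd)
        (Nat.dvd_of_mem_primeFactors hpd)
      have h4 : (z : ℝ) + 1 ≤ p := by exact_mod_cast h3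
      have h5 : (p : ℝ)⁻¹ ≤ ((z : ℝ) + 1)⁻¹ := inv_anti₀ (by linarith) h4
      have h6 : 1 + (z : ℝ)⁻¹ ≤ Real.exp ((z : ℝ)⁻¹) := by
        have := Real.add_one_le_exp ((z : ℝ)⁻¹)
        linarith
      have h7 : Real.exp (-(z : ℝ)⁻¹) ≤ (1 + (z : ℝ)⁻¹)⁻¹ := by
        rw [Real.exp_neg]
        exact inv_anti₀ (by positivity) h6
      have h8 : (1 + (z : ℝ)⁻¹)⁻¹ = 1 - ((z : ℝ) + 1)⁻¹ := by
        field_simp
        ring
      linarith
    rw [← Finset.prod_const]
    exact Finset.prod_le_prod (fun p _ => (Real.exp_pos _).le) hle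
  have h2 : (1 / 3 : ℝ) ≤ (Real.exp (-(z : ℝ)⁻¹)) ^ d.primeFactors.card := by
    rw [← Real.exp_nat_mul]
    have h3 : (-1 : ℝ) ≤ (d.primeFactors.card : ℝ) * -(z : ℝ)⁻¹ := by
      have h4 : (d.primeFactors.card : ℝ) * (z : ℝ)⁻¹ ≤ 1 := by
        rw [← div_eq_mul_inv, div_le_one hz0]
        exact_mod_cast (by omega : d.primeFactors.card ≤ z)
      linarith
    have h5 : Real.exp (-1) ≤ Real.exp ((d.primeFactors.card : ℝ) * -(z : ℝ)⁻¹) :=
      Real.exp_le_exp.2 h3
    have h6 : (1 / 3 : ℝ) ≤ Real.exp (-1) := by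
      rw [Real.exp_neg, one_div]
      apply inv_anti₀ (Real.exp_pos _)
      have := Real.exp_one_lt_d9
      linarith
    linarith
  rw [Pool.Agent.Helper69.PP.totient_real]
  have h4 : (1 / 3 : ℝ) ≤ ∏ p ∈ d.primeFactors, (1 - (p : ℝ)⁻¹) := h2.trans h1
  have h5 : (0 : ℝ) ≤ d := Nat.cast_nonneg d
  nlinarith

lemma mem_SS {z X r : ℕ} : r ∈ SS z X ↔ (1 ≤ r ∧ r < X) ∧ Sf z r := by
  unfold SS
  rw [mem_filter, mem_Ico]

lemma mem_LA {z m m' r : ℕ} : r ∈ LA z m m' ↔ r ∈ SS z (z ^ m') ∧ z ^ m ≤ r := by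
  unfold LA
  rw [mem_filter]

/-- the part of the label `r` prime to `d` -/
lemma sf_div {z d s : ℕ} (h : Sf z (d * s)) : Sf z s := by
  refine ⟨h.1.squarefree_of_dvd (Dvd.intro_left d rfl), fun p hp hps => h.2 p hp (hps.mul_left d)⟩

theorem cb : StmtCB := by
  obtain ⟨c, C0, hc, hC0, hMA⟩ := Pool.Agent.Helper24.PP.ma
  refine ⟨3 * (C0 + 1), by linarith, ?_⟩
  intro m q M z hm hz2 hMz hV d hd
  have hd3 := le_three_totient hz2 hMz hd
  have hd1 : 1 ≤ d := (mem_SS.1 hd).1.1
  have hphi : (0 : ℝ) < (Nat.totient d : ℝ) := by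
    exact_mod_cast Nat.totient_pos.2 (by omega)
  have hdphi : (d : ℝ) * (1 / (Nat.totient d : ℝ)) ≤ 3 := by
    rw [mul_one_div, div_le_iff₀ hphi]
    exact hd3
  have hd0 : (0 : ℝ) ≤ d := Nat.cast_nonneg d
  have hmr : (1 : ℝ) ≤ (m : ℝ) := by exact_mod_cast hm
  set V := VV z m (q * m) with hVdef
  have hVpos : 0 < V := by linarith
  constructor
  · -- the comparison function
    set g : ℕ → ℝ := fun s => if s < z ^ m then 1 / ((m : ℝ) * (Nat.totient s : ℝ)) else
      1 / V * (1 / ((Nat.totient s : ℝ) * ee z s)) with hg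
    have hgnn : ∀ s, 0 ≤ g s := by
      intro s
      simp only [hg]
      split_ifs <;> positivity
    set F := (LA z m (q * m)).filter (fun r => d ∣ r) with hF
    have hinj : Set.InjOn (fun r : ℕ => r / d) (F : Finset ℕ) := by
      intro r hr s hs hrs
      rw [Finset.mem_coe, hF, mem_filter] at hr hs
      obtain ⟨a, ha⟩ := hr.2
      obtain ⟨b, hb⟩ := hs.2
      simp only at hrs
      rw [ha, hb, Nat.mul_div_cancel_left a (by omega), Nat.mul_div_cancel_left b (by omega)]
        at hrs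
      rw [ha, hb, hrs]
    have hterm : ∀ r ∈ F, ab m q z r ≤ 1 / (Nat.totient d : ℝ) * g (r / d) := by
      intro r hr
      rw [hF, mem_filter, mem_LA, mem_SS] at hr
      obtain ⟨⟨⟨⟨h1, h2⟩, h3⟩, h4⟩, h5⟩ := hr
      obtain ⟨s, rfl⟩ := h5
      rw [Nat.mul_div_cancel_left s (by omega)]
      have hs1 : 1 ≤ s := by
        rcases Nat.eq_zero_or_pos s with h | h
        · rw [h] at h1; simp at h1
        · exact h
      have hco : Nat.Coprime d s := (Nat.squarefree_mul_iff.1 h3.1).1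
      have hphis : (0 : ℝ) < (Nat.totient s : ℝ) := by
        exact_mod_cast Nat.totient_pos.2 (by omega)
      have hphir : ((Nat.totient (d * s) : ℕ) : ℝ) = (Nat.totient d : ℝ) * (Nat.totient s : ℝ) := by
        rw [Nat.totient_mul hco]; push_cast; ring
      unfold ab
      rw [← hVdef, hphir]
      simp only [hg]
      split_ifs with hsz
      · have hlog : m ≤ Nat.log z (d * s) := (Nat.le_log_iff_pow_le (by omega) (by omega)).2 h4
        have hee : (m : ℝ) ≤ (ee z (d * s) : ℝ) := by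
          unfold ee
          exact_mod_cast (by omega : m ≤ Nat.log z (d * s) + 1)
        rw [one_div_mul_one_div]
        apply one_div_le_one_div_of_le (by positivity)
        calc (Nat.totient d : ℝ) * ((m : ℝ) * (Nat.totient s : ℝ))
            = 1 * ((Nat.totient d : ℝ) * (Nat.totient s : ℝ)) * m := by ring
          _ ≤ V * ((Nat.totient d : ℝ) * (Nat.totient s : ℝ)) * ee z (d * s) := by
              apply mul_le_mul _ hee (by positivity) (by positivity)
              exact mul_le_mul_of_nonneg_right hV (by positivity)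
      · have hlog : Nat.log z s ≤ Nat.log z (d * s) :=
          Nat.log_mono_right (Nat.le_mul_of_pos_left s (by omega))
        have hee : (ee z s : ℝ) ≤ (ee z (d * s) : ℝ) := by
          unfold ee
          exact_mod_cast (by omega : Nat.log z s + 1 ≤ Nat.log z (d * s) + 1)
        have hee0 : (0 : ℝ) < (ee z s : ℝ) := by
          unfold ee
          positivity
        rw [one_div_mul_one_div, one_div_mul_one_div]
        apply one_div_le_one_div_of_le (by positivity)
        calc (Nat.totient d : ℝ) * (V * ((Nat.totient s : ℝ) * ee z s))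
            = V * ((Nat.totient d : ℝ) * (Nat.totient s : ℝ)) * ee z s := by ring
          _ ≤ V * ((Nat.totient d : ℝ) * (Nat.totient s : ℝ)) * ee z (d * s) := by
              apply mul_le_mul_of_nonneg_left hee (by positivity)
    have hdisj : Disjoint (SS z (z ^ m)) (LA z m (q * m)) := by
      rw [Finset.disjoint_left]
      intro s hs hs'
      rw [mem_SS] at hs
      rw [mem_LA] at hs'
      omega
    have hsub : F.image (fun r => r / d) ⊆ SS z (z ^ m) ∪ LA z m (q * m) := by
      intro s hs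
      rw [mem_image] at hs
      obtain ⟨r, hr, rfl⟩ := hs
      rw [hF, mem_filter, mem_LA, mem_SS] at hr
      obtain ⟨⟨⟨⟨h1, h2⟩, h3⟩, h4⟩, h5⟩ := hr
      obtain ⟨s, rfl⟩ := h5
      rw [Nat.mul_div_cancel_left s (by omega), mem_union, mem_LA, mem_SS, mem_SS]
      have hs1 : 1 ≤ s := by
        rcases Nat.eq_zero_or_pos s with h | h
        · rw [h] at h1; simp at h1
        · exact h
      have hsf := sf_div h3
      rcases lt_or_ge s (z ^ m) with h | h
      · exact Or.inl ⟨⟨hs1, h⟩, hsf⟩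
      · exact Or.inr ⟨⟨⟨hs1, lt_of_le_of_lt (Nat.le_mul_of_pos_left s (by omega)) h2⟩, hsf⟩, h⟩
    have hsum : ∑ r ∈ F, g (r / d) ≤ C0 + 1 := by
      have e1 : ∑ r ∈ F, g (r / d) = ∑ s ∈ F.image (fun r => r / d), g s := by
        rw [Finset.sum_image hinj]
      have e2 : ∑ s ∈ F.image (fun r => r / d), g s ≤
          ∑ s ∈ SS z (z ^ m) ∪ LA z m (q * m), g s :=
        Finset.sum_le_sum_of_subset_of_nonneg hsub fun s _ _ => hgnn s
      have e3 : ∑ s ∈ SS z (z ^ m), g s ≤ C0 := by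
        have : ∑ s ∈ SS z (z ^ m), g s =
            1 / (m : ℝ) * ∑ s ∈ SS z (z ^ m), 1 / (Nat.totient s : ℝ) := by
          rw [Finset.mul_sum]
          refine Finset.sum_congr rfl fun s hs => ?_
          rw [mem_SS] at hs
          simp only [hg]
          rw [if_pos hs.1.2, one_div_mul_one_div]
        rw [this]
        have h2 := (hMA z m hz2 hm).2.1
        calc 1 / (m : ℝ) * ∑ s ∈ SS z (z ^ m), 1 / (Nat.totient s : ℝ)
            ≤ 1 / (m : ℝ) * (C0 * m) := mul_le_mul_of_nonneg_left h2 (by positivity)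
          _ = C0 := by field_simp
      have e4 : ∑ s ∈ LA z m (q * m), g s = 1 := by
        have : ∑ s ∈ LA z m (q * m), g s =
            1 / V * ∑ s ∈ LA z m (q * m), 1 / ((Nat.totient s : ℝ) * ee z s) := by
          rw [Finset.mul_sum]
          refine Finset.sum_congr rfl fun s hs => ?_
          rw [mem_LA] at hs
          simp only [hg]
          rw [if_neg (by omega)]
        rw [this]
        have hVV : ∑ s ∈ LA z m (q * m), 1 / ((Nat.totient s : ℝ) * ee z s) = V := by
          rw [hVdef]; rfl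
        rw [hVV]
        field_simp
      rw [e1]
      refine e2.trans ?_
      rw [Finset.sum_union hdisj, e4]
      linarith
    calc (d : ℝ) * ∑ r ∈ F, ab m q z r
        ≤ d * ∑ r ∈ F, 1 / (Nat.totient d : ℝ) * g (r / d) :=
          mul_le_mul_of_nonneg_left (Finset.sum_le_sum hterm) hd0
      _ = (d * (1 / (Nat.totient d : ℝ))) * ∑ r ∈ F, g (r / d) := by
          rw [← Finset.mul_sum]; ring
      _ ≤ 3 * (C0 + 1) := by
          apply mul_le_mul hdphi hsum _ (by norm_num)
          exact Finset.sum_nonneg fun r _ => hgnn _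
  · have h1 := Pool.Agent.Helper69.PP.sum_mult (z := z) (X := z ^ M) hd1
    have hnn : 0 ≤ ∑ r ∈ SS z (z ^ M), 1 / (Nat.totient r : ℝ) :=
      Finset.sum_nonneg fun r _ => by positivity
    calc (d : ℝ) * ∑ r ∈ (SS z (z ^ M)).filter (fun r => d ∣ r), 1 / (Nat.totient r : ℝ)
        ≤ d * (1 / (Nat.totient d : ℝ) * ∑ r ∈ SS z (z ^ M), 1 / (Nat.totient r : ℝ)) :=
          mul_le_mul_of_nonneg_left h1 hd0
      _ = (d * (1 / (Nat.totient d : ℝ))) * ∑ r ∈ SS z (z ^ M), 1 / (Nat.totient r : ℝ) := by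
          ring
      _ ≤ 3 * ∑ r ∈ SS z (z ^ M), 1 / (Nat.totient r : ℝ) :=
          mul_le_mul_of_nonneg_right hdphi hnn
      _ ≤ (3 * (C0 + 1)) * ∑ r ∈ SS z (z ^ M), 1 / (Nat.totient r : ℝ) := by
          apply mul_le_mul_of_nonneg_right _ hnn
          linarith

end Pool.Agent.Helper31.RR
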